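import Pool.Agent.Q4.FloorGcd

set_option autoImplicit false

/-!
# Small common divisors of `⌊α b^(k+m)⌋ ⌊β b^m⌋ + 1` with `b^m`
-/

namespace Pool.Agent.Results.MP_077ac3_nt.SmallGcd

open Pool.Agent.Q4.FloorGcd

/-- For every integer `b ≥ 2`, all irrational real algebraic numbers `α, β`, every `ε > 0` and
every `k ≥ 0`, the greatest common divisor of `⌊α b^(k+m)⌋ ⌊β b^m⌋ + 1` and `b^m` is smaller than
`b^(ε m)` for all sufficiently large `m`. -/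
theorem result :
    ∀ b : ℕ, 2 ≤ b → ∀ α β : ℝ, Irrational α → IsAlgebraic ℚ α → Irrational β → IsAlgebraic ℚ β →
      ∀ ε : ℝ, 0 < ε → ∀ k : ℕ, ∃ M : ℕ, ∀ m : ℕ, M ≤ m →
        (Int.gcd (⌊α * (b : ℝ) ^ (k + m)⌋ * ⌊β * (b : ℝ) ^ m⌋ + 1) ((b : ℤ) ^ m) : ℝ)
          < (b : ℝ) ^ (ε * (m : ℝ)) := by
  intro b hb α β iα aα iβ aβ ε hε k
  have hb0 : (b : ℚ) ^ k ≠ 0 := pow_ne_zero _ (by exact_mod_cast (by omega : b ≠ 0))
  have i1 : Irrational (α * (b : ℝ) ^ k) := by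
    have := iα.mul_ratCast hb0
    simpa using this
  have a1 : IsAlgebraic ℚ (α * (b : ℝ) ^ k) :=
    aα.mul ((isAlgebraic_natCast b).pow k)
  obtain ⟨M, hM⟩ := floor_gcd hb i1 iβ a1 aβ hε
  refine ⟨M, fun m hm => ?_⟩
  have h1 : α * (b : ℝ) ^ (k + m) = α * (b : ℝ) ^ k * (b : ℝ) ^ m := by
    rw [pow_add]; ring
  rw [h1]
  exact hM m hm

end Pool.Agent.Results.MP_077ac3_nt.SmallGcd
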